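import Mathlib

/-!
# Blue and red circles: all variegated pairs but one meet in a unique point

For every `n` there are `n + 1` blue and `n + 1` red circles in space, circles of the same colour being
disjoint, such that every variegated pair except the last one meets in exactly one point, while the last
pair meets in exactly two points.  For `n = 9` this is a configuration of ten blue and ten red circles
that refutes the incidence statement of the problem.

The circles are the generators `p_i + β`, `α + q_j` of the translational surface `α + β`, where `α`, `β`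
are unit circles in the planes `y = 0` and `x = 0`.
-/

set_option autoImplicit false

namespace Pool.Agent.Results.MP_00f561_co.TwoPoints

open Set

/-- Three-dimensional Euclidean space. -/
abbrev Space := EuclideanSpace ℝ (Fin 3)

/-- A round circle in space: the points of the plane through `c` with normal vector `ν ≠ 0` at distance
`ρ > 0` from `c`. -/
def IsCircle (S : Set Space) : Prop :=
  ∃ (c ν : Space) (ρ : ℝ), ν ≠ 0 ∧ 0 < ρ ∧ S = {x | inner ℝ ν (x - c) = 0 ∧ dist x c = ρ}

/-- The blue circle in the plane `x = √(1 - a²)` with centre at height `a` and radius `1`. -/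
def blue (a : ℝ) : Set Space := {x | x 0 = √(1 - a ^ 2) ∧ x 1 ^ 2 + (x 2 - a) ^ 2 = 1}

/-- The red circle in the plane `y = √(1 - b²)` with centre at height `b` and radius `1`. -/
def red (b : ℝ) : Set Space := {x | x 1 = √(1 - b ^ 2) ∧ x 0 ^ 2 + (x 2 - b) ^ 2 = 1}

theorem isCircle_blue (a : ℝ) : IsCircle (blue a) := by
  refine ⟨!₂[√(1 - a ^ 2), 0, a], !₂[1, 0, 0], 1, ?_, one_pos, ?_⟩
  · intro h
    have := congrArg (fun v : Space => v 0) h
    simp at this
  · ext x
    simp only [blue, mem_setOf_eq, EuclideanSpace.dist_eq, Fin.sum_univ_three, Real.dist_eq, sq_abs,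
      PiLp.inner_apply, Real.sqrt_eq_one]
    simp
    constructor
    · rintro ⟨h1, h2⟩
      have h3 : x 0 - √(1 - a ^ 2) = 0 := by rw [h1]; ring
      refine ⟨h3, ?_⟩
      rw [h3]; linarith
    · rintro ⟨h1, h2⟩
      rw [h1] at h2
      exact ⟨by linarith, by linarith⟩

theorem isCircle_red (b : ℝ) : IsCircle (red b) := by
  refine ⟨!₂[0, √(1 - b ^ 2), b], !₂[0, 1, 0], 1, ?_, one_pos, ?_⟩
  · intro h
    have := congrArg (fun v : Space => v 1) h
    simp at this
  · ext x
    simp only [red, mem_setOf_eq, EuclideanSpace.dist_eq, Fin.sum_univ_three, Real.dist_eq, sq_abs,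
      PiLp.inner_apply, Real.sqrt_eq_one]
    simp
    constructor
    · rintro ⟨h1, h2⟩
      have h3 : x 1 - √(1 - b ^ 2) = 0 := by rw [h1]; ring
      refine ⟨h3, ?_⟩
      rw [h3]; linarith
    · rintro ⟨h1, h2⟩
      rw [h1] at h2
      exact ⟨by linarith, by linarith⟩

/-- The point of `blue a ∩ red b` at height `z`. -/
noncomputable def pt (a b z : ℝ) : Space := !₂[√(1 - a ^ 2), √(1 - b ^ 2), z]

theorem mem_inter {a b : ℝ} (ha : a ^ 2 < 1) (hb : b ^ 2 < 1) (x : Space) :
    x ∈ blue a ∩ red b ↔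
      x = pt a b (a + b) ∨ (a = b ∧ x = pt a b 0) := by
  have hsa : √(1 - a ^ 2) ^ 2 = 1 - a ^ 2 := Real.sq_sqrt (by linarith)
  have hsb : √(1 - b ^ 2) ^ 2 = 1 - b ^ 2 := Real.sq_sqrt (by linarith)
  have hx : ∀ z, (x 0 = √(1 - a ^ 2) ∧ x 1 = √(1 - b ^ 2) ∧ x 2 = z) → x = pt a b z := by
    rintro z ⟨h0, h1, h2⟩
    ext i
    fin_cases i
    · simpa [pt] using h0
    · simpa [pt] using h1
    · simpa [pt] using h2
  constructor
  · rintro ⟨⟨h1, h2⟩, ⟨h3, h4⟩⟩
    rw [h3, hsb] at h2
    rw [h1, hsa] at h4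
    have e1 : (x 2 - (a + b)) * (x 2 - (a - b)) = 0 := by nlinarith
    have e2 : (x 2 - (a + b)) * (x 2 - (b - a)) = 0 := by nlinarith
    by_cases h : x 2 = a + b
    · exact Or.inl (hx _ ⟨h1, h3, h⟩)
    · have h' : x 2 - (a + b) ≠ 0 := sub_ne_zero.2 h
      have e3 := (mul_eq_zero.1 e1).resolve_left h'
      have e4 := (mul_eq_zero.1 e2).resolve_left h'
      exact Or.inr ⟨by linarith, hx _ ⟨h1, h3, by linarith⟩⟩
  · rintro (h | ⟨hab, h⟩)
    · subst h
      refine ⟨⟨by simp [pt], ?_⟩, ⟨by simp [pt], ?_⟩⟩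
      · simp only [pt, PiLp.toLp_apply, Matrix.cons_val_one, Matrix.cons_val_zero, Matrix.cons_val]
        rw [hsb]; ring
      · simp only [pt, PiLp.toLp_apply, Matrix.cons_val_one, Matrix.cons_val_zero, Matrix.cons_val]
        rw [hsa]; ring
    · subst h
      subst hab
      refine ⟨⟨by simp [pt], ?_⟩, ⟨by simp [pt], ?_⟩⟩
      · simp only [pt, PiLp.toLp_apply, Matrix.cons_val_one, Matrix.cons_val_zero, Matrix.cons_val]
        rw [hsa]; ring
      · simp only [pt, PiLp.toLp_apply, Matrix.cons_val_one, Matrix.cons_val_zero, Matrix.cons_val]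
        rw [hsa]; ring

theorem disj {a a' : ℝ} (ha : a ^ 2 < 1) (ha' : a' ^ 2 < 1) (h : a ^ 2 ≠ a' ^ 2) :
    √(1 - a ^ 2) ≠ √(1 - a' ^ 2) := by
  intro h1
  have h2 := congrArg (· ^ 2) h1
  simp only [Real.sq_sqrt (show (0 : ℝ) ≤ 1 - a ^ 2 by linarith),
    Real.sq_sqrt (show (0 : ℝ) ≤ 1 - a' ^ 2 by linarith)] at h2
  exact h (by linarith)

/-- Heights of the blue circles. -/
noncomputable def hB (n : ℕ) (i : Fin (n + 1)) : ℝ := ((i : ℕ) + 1) / (n + 2)

/-- Heights of the red circles. -/
noncomputable def hR (n : ℕ) (j : Fin (n + 1)) : ℝ := if j = Fin.last n then hB n j else - hB n j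

/-- **Theorem.**  For every `n` there are `n + 1` blue circles `B i` and `n + 1` red circles `R j` in
space, any two circles of the same colour being disjoint, such that each pair `(B i, R j)` with
`(i, j) ≠ (last, last)` has exactly one common point, and the pair `(B last, R last)` has exactly two
common points. -/
theorem result (n : ℕ) : ∃ B R : Fin (n + 1) → Set Space,
    (∀ i, IsCircle (B i)) ∧ (∀ j, IsCircle (R j)) ∧
    (∀ i i', i ≠ i' → Disjoint (B i) (B i')) ∧ (∀ j j', j ≠ j' → Disjoint (R j) (R j')) ∧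
    (∀ i j, (i, j) ≠ (Fin.last n, Fin.last n) → (B i ∩ R j).ncard = 1) ∧
    (B (Fin.last n) ∩ R (Fin.last n)).ncard = 2 := by
  have hpos : ∀ i, 0 < hB n i := fun i => by unfold hB; positivity
  have hlt : ∀ i, hB n i < 1 := by
    intro i
    unfold hB
    rw [div_lt_one (by positivity)]
    have : ((i : ℕ) : ℝ) ≤ n := by exact_mod_cast Nat.lt_succ_iff.1 i.2
    linarith
  have hinj : ∀ i i', hB n i = hB n i' → i = i' := by
    intro i i' h
    unfold hB at h
    rw [div_left_inj' (by positivity)] at h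
    have : ((i : ℕ) : ℝ) = (i' : ℕ) := by linarith
    exact Fin.ext (by exact_mod_cast this)
  have hsq : ∀ i, hB n i ^ 2 < 1 := fun i => by nlinarith [hpos i, hlt i]
  have hRsq : ∀ j, hR n j ^ 2 = hB n j ^ 2 := by
    intro j; unfold hR; split_ifs <;> ring
  have hne : ∀ i i', i ≠ i' → hB n i ^ 2 ≠ hB n i' ^ 2 := by
    intro i i' h h1
    exact h (hinj _ _ ((sq_eq_sq₀ (hpos i).le (hpos i').le).1 h1))
  refine ⟨fun i => blue (hB n i), fun j => red (hR n j), fun i => isCircle_blue _,
    fun j => isCircle_red _, ?_, ?_, ?_, ?_⟩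
  · intro i i' h
    rw [Set.disjoint_left]
    rintro x ⟨h1, -⟩ ⟨h2, -⟩
    exact disj (hsq i) (hsq i') (hne i i' h) (h1.symm.trans h2)
  · intro j j' h
    rw [Set.disjoint_left]
    rintro x ⟨h1, -⟩ ⟨h2, -⟩
    exact disj (by rw [hRsq]; exact hsq j) (by rw [hRsq]; exact hsq j')
      (by rw [hRsq, hRsq]; exact hne j j' h) (h1.symm.trans h2)
  · intro i j hij
    have h1 : hB n i ≠ hR n j := by
      unfold hR
      split_ifs with hj
      · intro h
        apply hij
        rw [hinj _ _ h, hj]
      · intro h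
        have := hpos i
        have := hpos j
        linarith
    rw [Set.ncard_eq_one]
    refine ⟨pt (hB n i) (hR n j) (hB n i + hR n j), ?_⟩
    ext x
    rw [mem_inter (hsq i) (by rw [hRsq]; exact hsq j)]
    simp [h1]
  · have h1 : hR n (Fin.last n) = hB n (Fin.last n) := by simp [hR]
    rw [Set.ncard_eq_two]
    refine ⟨pt (hB n (Fin.last n)) (hB n (Fin.last n)) (hB n (Fin.last n) + hB n (Fin.last n)),
      pt (hB n (Fin.last n)) (hB n (Fin.last n)) 0, ?_, ?_⟩
    · intro h
      have h2 := congrArg (fun v : Space => v 2) h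
      simp [pt] at h2
      have := hpos (Fin.last n)
      linarith
    · ext x
      simp only [h1]
      rw [mem_inter (hsq _) (hsq _)]
      simp

end Pool.Agent.Results.MP_00f561_co.TwoPoints
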